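import Pool.Agent.H993.TR.Fin2

namespace Pool.Agent.H284.LY

open Filter Topology NormedSpace Matrix MeasureTheory
open Pool.Agent.H993.TR

variable {V : Type} [Fintype V] [DecidableEq V]

/-- TASK 22. The counterpart of `set_bound`. -/
theorem task_set {β : ℝ} (hβ : 0 < β) {K : Matrix V V ℝ} (hK : K.PosDef) {w : V → V → ℝ}
    (hw : ∀ x y, 0 ≤ w x y) [Nonempty V] (ν : V → ℝ) (T : Set ℤ) (c : ℝ)
    (h : ∀ N, ∑ x, ∑ y, TI (rs (rotK β K w ν) N) (sh N x y) ≤
      c * TI (rs (rotK β K w ν) N) id) :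
    ∑ x, ∑ y, TI (rt (rotK β K w ν) T) (sht T x y) ≤ c * TI (rt (rotK β K w ν) T) id := by
  classical
  have hA := rotK_adm hβ.le K hw ν
  have hB := rotK_bdd' hβ hK hw ν
  set A := rotK β K w ν with hAd
  -- the constant is not negative
  have hc : 0 ≤ c := by
    have : Nonempty (Sec V 0) := ⟨⟨0, by simp⟩⟩
    have hZ : 0 < TI (rs A 0) id := TI_pos (rs_adm hA 0) (rs_bdd hA hB 0)
    have hnn : 0 ≤ ∑ x, ∑ y, TI (rs A 0) (sh 0 x y) := by
      refine Finset.sum_nonneg fun x _ => Finset.sum_nonneg fun y _ => ?_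
      exact (TS_nonneg (rs_adm hA 0) _ ∅).trans
        (TS_le_TI (rs_adm hA 0) (rs_bdd hA hB 0) (sh_inj 0 x y) _)
    by_contra hc
    push Not at hc
    have := hnn.trans (h 0)
    nlinarith
  have hlim : Tendsto (fun R => ∑ x, ∑ y, TS (rt A T) (sht T x y) R) atTop
      (𝓝 (∑ x, ∑ y, TI (rt A T) (sht T x y))) :=
    tendsto_finsetSum _ fun x _ => tendsto_finsetSum _ fun y _ =>
      TS_tendsto (rt_adm hA T) (rt_bdd hA hB T) (sht_inj T x y)
  refine le_of_tendsto' hlim fun R => ?_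
  set Q : Finset ℤ := R.image (fun n : CT V T => ∑ x, n.1 x) with hQ
  have hQT : ∀ N ∈ Q, N ∈ T := by
    intro N hN
    obtain ⟨n, _, rfl⟩ := Finset.mem_image.1 hN
    exact n.2
  have hsp : ∀ x y, TS (rt A T) (sht T x y) R ≤ ∑ N ∈ Q, TI (rs A N) (sh N x y) := by
    intro x y
    rw [TS_rt, TS_split β K w ν (eta x y) (eta_charge x y) (R.map (te V T)) Q (by
      intro n hn
      obtain ⟨z, hz, rfl⟩ := Finset.mem_map.1 hn
      exact Finset.mem_image_of_mem _ hz)]
    refine Finset.sum_le_sum fun N _ => ?_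
    rw [filter_eq_map, ← TS_rs]
    exact TS_le_TI (rs_adm hA N) (rs_bdd hA hB N) (sh_inj N x y) _
  have hsh : ∀ (N : ℤ) (x : V), sh N x x = (id : Sec V N → Sec V N) := by
    intro N x
    funext n
    apply Subtype.ext
    show n.1 + eta x x = n.1
    unfold eta
    simp
  have hsht : ∀ x : V, sht T x x = (id : CT V T → CT V T) := by
    intro x
    funext n
    apply Subtype.ext
    show n.1 + eta x x = n.1
    unfold eta
    simp
  obtain ⟨z⟩ := (inferInstance : Nonempty V)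
  have hid := sec_le_set hβ hK hw ν T Q hQT z z
  rw [hsht, ← hAd] at hid
  simp only [hsh] at hid
  calc ∑ x, ∑ y, TS (rt A T) (sht T x y) R ≤ ∑ x, ∑ y, ∑ N ∈ Q, TI (rs A N) (sh N x y) :=
        Finset.sum_le_sum fun x _ => Finset.sum_le_sum fun y _ => hsp x y
    _ = ∑ N ∈ Q, ∑ x, ∑ y, TI (rs A N) (sh N x y) := by
        symm
        rw [Finset.sum_comm]
        refine Finset.sum_congr rfl fun x _ => ?_
        rw [Finset.sum_comm]
    _ ≤ ∑ N ∈ Q, c * TI (rs A N) id := Finset.sum_le_sum fun N _ => h N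
    _ = c * ∑ N ∈ Q, TI (rs A N) id := by rw [Finset.mul_sum]
    _ ≤ _ := mul_le_mul_of_nonneg_left hid hc

end Pool.Agent.H284.LY
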